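import Pool.Agent.P8H14.GH.Stm
import Pool.Agent.P8H14.PL.L5
import Pool.Agent.Helper112.MultLS

set_option autoImplicit false

/-!
# Project GH (helper14), package THC: sums of primitive characters of small conductors over primes at good scales
-/

namespace Pool.Agent.P8H54.GH

open Finset
open Pool.Agent.TH823.PS (rr mem_rr)
open Pool.Agent.P8H13.PK
open Pool.Agent.P8H13.GK
open Pool.Agent.P8H14.GH (S_THC)
open Pool.Agent.P8H14.PL (pow_exp)

/-- one window -/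
lemma window (d : ℕ) [NeZero d] {ψ : DirichletCharacter ℂ d} (hψ : ψ.IsPrimitive) (hd : 1 < d) (lo hi : ℕ)
    (hlo : 1 ≤ lo) (m : ℂ) :
    ‖∑ n ∈ Ico lo hi, ((th n : ℝ) : ℂ) * ψ (n : ZMod d)‖ ^ 2 ≤ ∑ a ∈ rr d, ‖SS d a lo hi - m‖ ^ 2 := by
  classical
  set α : ℕ → ℂ := fun n => if lo ≤ n ∧ n < hi then ((th n : ℝ) : ℂ) else 0 with hα
  have hs : ∀ f : ℕ → ℂ, ∑ n ∈ Icc 1 hi, α n * f n = ∑ n ∈ Ico lo hi, ((th n : ℝ) : ℂ) * f n := by
    intro f
    have e : Ico lo hi = (Icc 1 hi).filter (fun n => lo ≤ n ∧ n < hi) := by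
      ext n
      simp only [mem_Ico, mem_filter, mem_Icc]
      omega
    rw [e, sum_filter]
    apply sum_congr rfl
    intro n _
    simp only [hα]
    split_ifs <;> simp
  have hT : ∀ a : ℕ, Pool.Agent.Helper112.MLS.T d hi α (a : ZMod d) = SS d a lo hi := by
    intro a
    rw [Pool.Agent.Helper112.MLS.T_eq, hs (fun n => Pool.Agent.Helper112.ee (n * a / d))]
    unfold SS
    apply sum_congr rfl
    intro n _
    rw [mul_comm]
  have h1 := Pool.Agent.Helper112.MLS.sum_char_T d hi α hψ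
  rw [hs (fun n => ψ (n : ZMod d))] at h1
  set S := ∑ n ∈ Ico lo hi, ((th n : ℝ) : ℂ) * ψ (n : ZMod d) with hS
  set G := gaussSum ψ⁻¹ (ZMod.stdAddChar : AddChar (ZMod d) ℂ) with hG
  have hne : ψ⁻¹ ≠ 1 := by
    intro h
    have h2 : ψ = 1 := inv_eq_one.1 h
    rw [DirichletCharacter.isPrimitive_def, h2, DirichletCharacter.conductor_one] at hψ
    omega
  have h2 : ∑ a : ZMod d, ψ⁻¹ a = 0 := MulChar.sum_eq_zero_of_ne_one hne
  have hinv : (ψ⁻¹).IsPrimitive := by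
    rw [DirichletCharacter.isPrimitive_def, DirichletCharacter.conductor_inv]
    exact hψ
  have hGn := Pool.Agent.Helper112.MLS.norm_gauss d hinv
  set g : ZMod d → ℂ := fun a => if IsUnit a then Pool.Agent.Helper112.MLS.T d hi α a - m else 0 with hg
  have h3 : ∑ a : ZMod d, ψ⁻¹ a * g a = S * G := by
    rw [← h1]
    have e1 : ∀ a : ZMod d, ψ⁻¹ a * g a = ψ⁻¹ a * Pool.Agent.Helper112.MLS.T d hi α a - ψ⁻¹ a * m := by
      intro a
      simp only [hg]
      split_ifs with h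
      · ring
      · rw [(ψ⁻¹).map_nonunit h]; ring
    rw [sum_congr rfl (fun a _ => e1 a), sum_sub_distrib, ← sum_mul, h2, zero_mul, sub_zero]
  have h4 : ‖S‖ ^ 2 * d ≤ (Nat.totient d : ℝ) * ∑ a : ZMod d, ‖g a‖ ^ 2 := by
    rw [← hGn, ← mul_pow, ← norm_mul, ← h3, ← Pool.Agent.Helper112.MLS.sum_norm_char d ψ⁻¹]
    calc ‖∑ a : ZMod d, ψ⁻¹ a * g a‖ ^ 2 ≤ (∑ a : ZMod d, ‖ψ⁻¹ a‖ * ‖g a‖) ^ 2 := by
          apply pow_le_pow_left₀ (norm_nonneg _)
          refine (norm_sum_le _ _).trans (le_of_eq ?_)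
          apply sum_congr rfl
          intro a _
          rw [norm_mul]
      _ ≤ _ := sum_mul_sq_le_sq_mul_sq _ _ _
  have h5 : ∑ a : ZMod d, ‖g a‖ ^ 2 = ∑ a ∈ rr d, ‖SS d a lo hi - m‖ ^ 2 := by
    have e1 : ∑ a : ZMod d, ‖g a‖ ^ 2 = ∑ a ∈ range d, ‖g (a : ZMod d)‖ ^ 2 := by
      refine sum_bij' (fun a _ => a.val) (fun a _ => (a : ZMod d)) ?_ ?_ ?_ ?_ ?_
      · intro a _
        rw [mem_range]
        exact ZMod.val_lt a
      · intro a _
        exact mem_univ _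
      · intro a _
        exact ZMod.natCast_zmod_val a
      · intro a ha
        exact ZMod.val_cast_of_lt (mem_range.1 ha)
      · intro a _
        rw [ZMod.natCast_zmod_val]
    rw [e1]
    unfold rr
    rw [sum_filter]
    apply sum_congr rfl
    intro a _
    simp only [hg]
    by_cases h : a.Coprime d
    · rw [if_pos ((ZMod.isUnit_iff_coprime a d).2 h), if_pos h, hT]
    · rw [if_neg (fun h' => h ((ZMod.isUnit_iff_coprime a d).1 h')), if_neg h]
      simp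
  rw [h5] at h4
  have hd0 : (0 : ℝ) < d := by exact_mod_cast NeZero.pos d
  have hφ : (Nat.totient d : ℝ) ≤ d := by exact_mod_cast Nat.totient_le d
  have hnn : 0 ≤ ∑ a ∈ rr d, ‖SS d a lo hi - m‖ ^ 2 := sum_nonneg fun _ _ => sq_nonneg _
  have h6 : ‖S‖ ^ 2 * d ≤ (∑ a ∈ rr d, ‖SS d a lo hi - m‖ ^ 2) * d := by
    refine h4.trans ?_
    rw [mul_comm]
    exact mul_le_mul_of_nonneg_left hφ hnn
  exact le_of_mul_le_mul_right h6 hd0

/-- from the windows to the whole sum -/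
lemma windows (f : ℕ → ℂ) (b : ℝ) {H T : ℕ} (hT : 2 * H ≤ T) (hb0 : 0 ≤ b) (hb : ∀ n < T, ‖f n‖ ≤ b) :
    (H : ℝ) * ‖∑ n ∈ range T, f n‖ ≤
      ‖∑ x ∈ Ico (2 * H) T, ∑ n ∈ Ico (x + 1 - H) (x + 1), f n‖ + 3 * H * (H * b) := by
  classical
  set c : ℕ → ℕ := fun n => ((Ico (2 * H) T).filter (fun x => x + 1 - H ≤ n ∧ n < x + 1)).card with hc
  have h1 : ∑ x ∈ Ico (2 * H) T, ∑ n ∈ Ico (x + 1 - H) (x + 1), f n = ∑ n ∈ range T, (c n : ℂ) * f n := by
    rw [sum_comm' (t' := range T) (s' := fun n => (Ico (2 * H) T).filter (fun x => x + 1 - H ≤ n ∧ n < x + 1))]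
    · apply sum_congr rfl
      intro n _
      rw [sum_const, nsmul_eq_mul]
    · intro x n
      simp only [mem_Ico, mem_filter, mem_range]
      omega
  have hcH : ∀ n, c n ≤ H := by
    intro n
    have h2 : (Ico (2 * H) T).filter (fun x => x + 1 - H ≤ n ∧ n < x + 1) ⊆ Ico n (n + H) := by
      intro x hx
      rw [mem_filter, mem_Ico] at hx
      rw [mem_Ico]
      omega
    have h3 := card_le_card h2
    rw [Nat.card_Ico] at h3
    simp only [hc]
    omega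
  have hcE : ∀ n, 2 * H ≤ n → n + H ≤ T → c n = H := by
    intro n hn1 hn2
    have h2 : (Ico (2 * H) T).filter (fun x => x + 1 - H ≤ n ∧ n < x + 1) = Ico n (n + H) := by
      ext x
      rw [mem_filter, mem_Ico, mem_Ico]
      omega
    simp only [hc]
    rw [h2, Nat.card_Ico]
    omega
  rw [h1]
  have h4 : (H : ℂ) * ∑ n ∈ range T, f n = ∑ n ∈ range T, (c n : ℂ) * f n +
      ∑ n ∈ range T, ((H : ℂ) - c n) * f n := by
    rw [← sum_add_distrib, mul_sum]
    apply sum_congr rfl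
    intro n _
    ring
  have h5 : ‖∑ n ∈ range T, ((H : ℂ) - c n) * f n‖ ≤ 3 * H * (H * b) := by
    have e1 : ∀ n ∈ range T, ‖((H : ℂ) - c n) * f n‖ ≤ if ¬ (2 * H ≤ n ∧ n + H ≤ T) then (H * b : ℝ) else 0 := by
      intro n hn
      rw [mem_range] at hn
      by_cases h : 2 * H ≤ n ∧ n + H ≤ T
      · rw [if_neg (not_not.2 h), hcE n h.1 h.2, sub_self, zero_mul, norm_zero]
      · rw [if_pos h, norm_mul]
        have e2 : ‖(H : ℂ) - c n‖ ≤ H := by
          rw [← Nat.cast_sub (hcH n), Complex.norm_natCast]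
          exact_mod_cast Nat.sub_le _ _
        exact mul_le_mul e2 (hb n hn) (norm_nonneg _) (Nat.cast_nonneg _)
    refine (norm_sum_le _ _).trans ((sum_le_sum e1).trans ?_)
    rw [← sum_filter, sum_const, nsmul_eq_mul]
    apply mul_le_mul_of_nonneg_right _ (by positivity)
    have e3 : (range T).filter (fun n => ¬ (2 * H ≤ n ∧ n + H ≤ T)) ⊆ range (2 * H) ∪ Ico (T - H) T := by
      intro n hn
      rw [mem_filter, mem_range] at hn
      rw [mem_union, mem_range, mem_Ico]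
      omega
    have e4 := (card_le_card e3).trans (card_union_le _ _)
    rw [card_range, Nat.card_Ico] at e4
    have e5 : ((range T).filter (fun n => ¬ (2 * H ≤ n ∧ n + H ≤ T))).card ≤ 3 * H := by omega
    exact_mod_cast e5
  have h6 : (H : ℝ) * ‖∑ n ∈ range T, f n‖ = ‖(H : ℂ) * ∑ n ∈ range T, f n‖ := by
    rw [norm_mul, Complex.norm_natCast]
  rw [h6, h4]
  exact (norm_add_le _ _).trans (add_le_add le_rfl h5)

theorem thc : S_THC := by
  intro A c C hc hc8 hC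
  obtain ⟨c0, Z0, hc0, hZ0, hAD⟩ := AD (2 * A + 4) hc hc8 hC
  obtain ⟨l1, hl1, hpow⟩ := pow_exp (2 * A + 2) (123904 * 2 ^ (2 * A + 2))
  refine ⟨c0 / 6, max (max (max Z0 1000) (2 ^ (2 * A + 8))) l1, by positivity,
    ((le_max_right _ _).trans (le_max_left _ _)).trans (le_max_left _ _),
    fun l hl hReg T hlog hβ1 hβ2 d ψ hd hdl hψ => ?_⟩
  have hlZ : Z0 ≤ l := ((le_max_left _ _).trans ((le_max_left _ _).trans (le_max_left _ _))).trans hl
  have hl0 : 1000 ≤ l := ((le_max_right _ _).trans ((le_max_left _ _).trans (le_max_left _ _))).trans hl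
  have hlA : (2 : ℝ) ^ (2 * A + 8) ≤ l := ((le_max_right _ _).trans (le_max_left _ _)).trans hl
  have hll1 : l1 ≤ l := (le_max_right _ _).trans hl
  have : NeZero d := ⟨by omega⟩
  set β := Real.log (T : ℝ) with hβ
  have hβ0 : 0 < β := by linarith
  have hTn : 0 < T := by
    rcases Nat.eq_zero_or_pos T with h | h
    · rw [hβ, h] at hβ0
      simp at hβ0
    · exact h
  have hT0 : (0 : ℝ) < T := by exact_mod_cast hTn
  have hβ1' : 1 ≤ β := by linarith
  have hYexp : Real.exp β = (T : ℝ) := Real.exp_log hT0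
  set H := HH l T with hH
  have hTbig : Real.exp (100 * l) ≤ T := by
    rw [← hYexp]; exact Real.exp_le_exp.2 hlog
  have hx1 : 2 ≤ (T : ℝ) * Real.exp (-(4 * l)) := by
    calc (2 : ℝ) ≤ l + 1 := by linarith
      _ ≤ Real.exp l := Real.add_one_le_exp l
      _ ≤ Real.exp (100 * l + -(4 * l)) := Real.exp_le_exp.2 (by linarith)
      _ = Real.exp (100 * l) * Real.exp (-(4 * l)) := by rw [Real.exp_add]
      _ ≤ _ := mul_le_mul_of_nonneg_right hTbig (Real.exp_pos _).le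
  have hHle : (H : ℝ) ≤ T * Real.exp (-(4 * l)) := Nat.floor_le (by positivity)
  have hHge : (T : ℝ) * Real.exp (-(4 * l)) / 2 ≤ H := by
    have f1 : (T : ℝ) * Real.exp (-(4 * l)) < H + 1 := Nat.lt_floor_add_one _
    linarith
  have hHpos : (0 : ℝ) < H := by linarith
  have hHn : 1 ≤ H := by exact_mod_cast hHpos
  have he4 : Real.exp (-(4 * l)) ≤ 1 / 2 := by
    have f1 := Real.add_one_le_exp (4 * l)
    rw [Real.exp_neg, inv_eq_one_div]
    exact one_div_le_one_div_of_le (by norm_num) (by linarith)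
  have hH2 : 2 * H ≤ T := by
    have f1 : (2 : ℝ) * H ≤ T := by
      have : (T : ℝ) * Real.exp (-(4 * l)) ≤ T * (1 / 2) := mul_le_mul_of_nonneg_left he4 hT0.le
      linarith
    exact_mod_cast f1
  set F : ℕ := ⌊Real.exp l⌋₊ with hF
  have hF1 : 1 ≤ F := Nat.floor_pos.2 (Real.one_le_exp (by linarith))
  have hFle : (F : ℝ) ≤ Real.exp l := Nat.floor_le (Real.exp_pos _).le
  have hdF : d ≤ F := Nat.le_floor hdl
  have had := hAD (12 * l) (6 * l) (Real.exp (-(6 * l))) β 1 H T hReg (by ring) rfl le_rfl hHn hH2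
    (by rw [one_mul]) (by linarith) (by
      rw [show (6 : ℝ) * l = √((6 * l) ^ 2) from (Real.sqrt_sq (by linarith)).symm]
      apply Real.sqrt_le_sqrt
      linarith) (by linarith) (by
      rw [one_mul]
      have f1 : Real.log ((T : ℝ) * Real.exp (-(4 * l)) / 2) ≤ Real.log (H : ℝ) :=
        Real.log_le_log (by positivity) hHge
      rw [Real.log_div (by positivity) (by norm_num), Real.log_mul (by positivity) (by positivity), Real.log_exp, ← hβ] at f1
      have := Real.log_two_lt_d9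
      linarith) (by
      rw [one_mul]
      have f1 : Real.exp (-(6 * l)) * ((T : ℝ) * Real.exp (-(4 * l)) / 2) ≤ Real.exp (-(6 * l)) * (H : ℝ) :=
        mul_le_mul_of_nonneg_left hHge (Real.exp_pos _).le
      refine le_trans ?_ f1
      rw [← hYexp]
      have f2 : Real.exp (-(6 * l)) * (Real.exp β * Real.exp (-(4 * l)) / 2) = Real.exp (β - 10 * l) / 2 := by
        rw [show β - 10 * l = -(6 * l) + (β + -(4 * l)) by ring, Real.exp_add, Real.exp_add]
        ring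
      rw [f2]
      have := Real.add_one_le_exp (β - 10 * l)
      linarith) F hF1 (hFle.trans (Real.exp_le_exp.2 (by linarith)))
  simp only [one_mul] at had
  -- the windows
  set w : ℕ → ℂ := fun x => ∑ n ∈ Ico (x + 1 - H) (x + 1), ((th n : ℝ) : ℂ) * ψ (n : ZMod d) with hw
  have hB : ∑ x ∈ Ico (2 * H) T, ‖w x‖ ^ 2 ≤
      2 * ((H : ℝ) ^ 2 * T) * (2 ^ (2 * A + 4) * (β / β ^ (2 * A + 4))) +
      2 * (F : ℝ) ^ 2 * T * (20 * Real.exp (-(6 * l)) * (T : ℝ) * Real.log ((9 * T : ℕ) : ℝ) +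
        2 * √(T : ℝ) * Real.log ((9 * T : ℕ) : ℝ)) ^ 2 := by
    refine le_trans ?_ had
    have e1 : ∑ a ∈ rr d, ∑ x ∈ Ico (2 * H) T,
        ‖SS d a (x + 1 - H) (x + 1) - ((ArithmeticFunction.moebius d : ℤ) : ℂ) / d.totient * ((H : ℕ) : ℝ)‖ ^ 2 ≤
        ∑ q ∈ Finset.Icc 1 F, ∑ a ∈ rr q, ∑ x ∈ Ico (2 * H) T,
        ‖SS q a (x + 1 - H) (x + 1) - ((ArithmeticFunction.moebius q : ℤ) : ℂ) / q.totient * ((H : ℕ) : ℝ)‖ ^ 2 :=
      single_le_sum (f := fun q => ∑ a ∈ rr q, ∑ x ∈ Ico (2 * H) T,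
        ‖SS q a (x + 1 - H) (x + 1) - ((ArithmeticFunction.moebius q : ℤ) : ℂ) / q.totient * ((H : ℕ) : ℝ)‖ ^ 2)
        (fun _ _ => sum_nonneg fun _ _ => sum_nonneg fun _ _ => sq_nonneg _) (mem_Icc.2 ⟨by omega, hdF⟩)
    refine le_trans ?_ e1
    rw [sum_comm]
    apply sum_le_sum
    intro x hx
    rw [mem_Ico] at hx
    exact window d hψ hd (x + 1 - H) (x + 1) (by omega) _
  set X1 := 20 * Real.exp (-(6 * l)) * T * Real.log ((9 * T : ℕ) : ℝ) +
        2 * √(T : ℝ) * Real.log ((9 * T : ℕ) : ℝ) with hX1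
  have hlog9 : Real.log ((9 * T : ℕ) : ℝ) ≤ 2 * β := by
    rw [Nat.cast_mul, Real.log_mul (by norm_num) (by positivity), ← hβ]
    have : Real.log ((9 : ℕ) : ℝ) ≤ 8 := by
      have := Real.log_le_sub_one_of_pos (show (0 : ℝ) < 9 by norm_num)
      push_cast
      linarith
    linarith
  have hlog90 : 0 ≤ Real.log ((9 * T : ℕ) : ℝ) := Real.log_natCast_nonneg _
  have hsqY : √(T : ℝ) ≤ Real.exp (-(6 * l)) * T := by
    rw [Real.sqrt_le_left (by positivity), mul_pow, ← Real.exp_nat_mul]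
    have f1 : 1 ≤ Real.exp ((2 : ℕ) * -(6 * l)) * T := by
      rw [← hYexp, ← Real.exp_add]
      apply Real.one_le_exp
      push_cast
      linarith
    calc (T : ℝ) = 1 * T := (one_mul _).symm
      _ ≤ (Real.exp ((2 : ℕ) * -(6 * l)) * T) * T := mul_le_mul_of_nonneg_right f1 hT0.le
      _ = _ := by ring
  have hX10 : 0 ≤ X1 := by positivity
  have hX1le : X1 ≤ 44 * β * (Real.exp (-(6 * l)) * T) := by
    calc X1 ≤ 20 * Real.exp (-(6 * l)) * T * (2 * β) + 2 * (Real.exp (-(6 * l)) * T) * (2 * β) := by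
          rw [hX1]
          gcongr
      _ = 44 * β * (Real.exp (-(6 * l)) * T) := by ring
  have hX2 : X1 ^ 2 ≤ 1936 * β ^ 2 * (Real.exp (-(12 * l)) * (T : ℝ) ^ 2) := by
    calc X1 ^ 2 ≤ (44 * β * (Real.exp (-(6 * l)) * T)) ^ 2 := pow_le_pow_left₀ hX10 hX1le 2
      _ = 1936 * β ^ 2 * (Real.exp (-(6 * l)) ^ 2 * (T : ℝ) ^ 2) := by ring
      _ = _ := by rw [← Real.exp_nat_mul]; push_cast; ring_nf
  have hHsq : (T : ℝ) ^ 2 * Real.exp (-(8 * l)) / 4 ≤ (H : ℝ) ^ 2 := by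
    calc (T : ℝ) ^ 2 * Real.exp (-(8 * l)) / 4 = (T * Real.exp (-(4 * l)) / 2) ^ 2 := by
          rw [div_pow, mul_pow, ← Real.exp_nat_mul]; push_cast; ring_nf
      _ ≤ _ := pow_le_pow_left₀ (by positivity) hHge 2
  have hF2 : (F : ℝ) ^ 2 ≤ Real.exp (2 * l) := by
    calc _ ≤ Real.exp l ^ 2 := pow_le_pow_left₀ (Nat.cast_nonneg _) hFle 2
      _ = _ := by rw [← Real.exp_nat_mul]; push_cast; ring_nf
  -- powers of the logarithm
  have hβp : 123904 * β ^ (2 * A + 2) ≤ Real.exp (l / 100) := by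
    have f1 := hpow l hll1 (β / 2) (by positivity) (by linarith)
    refine le_trans (le_of_eq ?_) f1
    rw [div_pow]
    field_simp
  have hβA : 0 < β ^ A := by positivity
  have hβ2A : 0 < β ^ (2 * A) := by positivity
  -- the first term
  have t1 : 2 * ((H : ℝ) ^ 2 * T) * (2 ^ (2 * A + 4) * (β / β ^ (2 * A + 4))) ≤
      (H : ℝ) ^ 2 * T * (1 / (8 * β ^ (2 * A))) := by
    have f1 : 2 * ((H : ℝ) ^ 2 * T) * (2 ^ (2 * A + 4) * (β / β ^ (2 * A + 4))) =
        (H : ℝ) ^ 2 * T * (2 ^ (2 * A + 5) / (β ^ (2 * A) * β ^ 3)) := by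
      rw [show 2 * A + 4 = 2 * A + 3 + 1 by ring, show 2 * A + 5 = (2 * A + 3 + 1) + 1 by ring,
        pow_succ β (2 * A + 3), pow_add β (2 * A) 3, pow_succ (2 : ℝ) (2 * A + 3 + 1)]
      field_simp
    rw [f1]
    apply mul_le_mul_of_nonneg_left _ (by positivity)
    rw [div_le_div_iff₀ (by positivity) (by positivity)]
    have f2 : (2 : ℝ) ^ (2 * A + 8) = 2 ^ (2 * A + 5) * 8 := by
      rw [show 2 * A + 8 = 2 * A + 5 + 3 by ring, pow_add _ (2 * A + 5) 3]; norm_num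
    have f3 : (2 : ℝ) ^ (2 * A + 5) * 8 ≤ β := by rw [← f2]; linarith
    have f4 : β ≤ β ^ 3 := by
      calc β = β ^ 1 := (pow_one β).symm
        _ ≤ β ^ 3 := pow_le_pow_right₀ hβ1' (by norm_num)
    calc (2 : ℝ) ^ (2 * A + 5) * (8 * β ^ (2 * A)) = β ^ (2 * A) * (2 ^ (2 * A + 5) * 8) := by ring
      _ ≤ β ^ (2 * A) * β ^ 3 := mul_le_mul_of_nonneg_left (f3.trans f4) hβ2A.le
      _ = 1 * (β ^ (2 * A) * β ^ 3) := (one_mul _).symm
  -- the second term
  have t2 : 2 * (F : ℝ) ^ 2 * T * X1 ^ 2 ≤ (H : ℝ) ^ 2 * T * (1 / (8 * β ^ (2 * A))) := by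
    have f1 : 2 * (F : ℝ) ^ 2 * T * X1 ^ 2 ≤
        2 * Real.exp (2 * l) * T * (1936 * β ^ 2 * (Real.exp (-(12 * l)) * (T : ℝ) ^ 2)) := by
      gcongr
    refine f1.trans ?_
    have f2 : (T : ℝ) ^ 2 * Real.exp (-(8 * l)) / 4 * T * (1 / (8 * β ^ (2 * A))) ≤
        (H : ℝ) ^ 2 * T * (1 / (8 * β ^ (2 * A))) := by
      gcongr
    refine le_trans ?_ f2
    have f3 : (T : ℝ) ^ 2 * Real.exp (-(8 * l)) / 4 * T * (1 / (8 * β ^ (2 * A))) =
        (T : ℝ) ^ 3 * (Real.exp (-(8 * l)) / (32 * β ^ (2 * A))) := by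
      field_simp
      norm_num
    have f4 : 2 * Real.exp (2 * l) * T * (1936 * β ^ 2 * (Real.exp (-(12 * l)) * (T : ℝ) ^ 2)) =
        (T : ℝ) ^ 3 * (3872 * β ^ 2 * (Real.exp (2 * l) * Real.exp (-(12 * l)))) := by ring
    rw [f3, f4]
    apply mul_le_mul_of_nonneg_left _ (by positivity)
    rw [le_div_iff₀ (by positivity)]
    have f5 : 3872 * β ^ 2 * (Real.exp (2 * l) * Real.exp (-(12 * l))) * (32 * β ^ (2 * A)) =
        (123904 * β ^ (2 * A + 2)) * (Real.exp (2 * l) * Real.exp (-(12 * l))) := by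
      rw [pow_add β (2 * A) 2]; ring
    rw [f5]
    calc (123904 * β ^ (2 * A + 2)) * (Real.exp (2 * l) * Real.exp (-(12 * l)))
        ≤ Real.exp (l / 100) * (Real.exp (2 * l) * Real.exp (-(12 * l))) := by gcongr
      _ = Real.exp (l / 100 + (2 * l + -(12 * l))) := by rw [Real.exp_add, Real.exp_add]
      _ ≤ Real.exp (-(8 * l)) := Real.exp_le_exp.2 (by linarith)
  have hB2 : ∑ x ∈ Ico (2 * H) T, ‖w x‖ ^ 2 ≤ (H : ℝ) ^ 2 * T * (1 / (4 * β ^ (2 * A))) := by
    refine hB.trans ((add_le_add t1 t2).trans (le_of_eq ?_))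
    field_simp
    norm_num
  -- the sum over the windows
  have hsum : ‖∑ x ∈ Ico (2 * H) T, w x‖ ≤ (H : ℝ) * T * (1 / (2 * β ^ A)) := by
    have g1 : ‖∑ x ∈ Ico (2 * H) T, w x‖ ≤ ∑ x ∈ Ico (2 * H) T, 1 * ‖w x‖ := by
      simp only [one_mul]
      exact norm_sum_le _ _
    have g2 : (∑ x ∈ Ico (2 * H) T, 1 * ‖w x‖) ^ 2 ≤ ((H : ℝ) * T * (1 / (2 * β ^ A))) ^ 2 := by
      refine (sum_mul_sq_le_sq_mul_sq _ _ _).trans ?_
      have g3 : ∑ x ∈ Ico (2 * H) T, (1 : ℝ) ^ 2 ≤ T := by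
        simp only [one_pow, sum_const, Nat.card_Ico, nsmul_eq_mul, mul_one]
        exact_mod_cast Nat.sub_le _ _
      calc (∑ x ∈ Ico (2 * H) T, (1 : ℝ) ^ 2) * ∑ x ∈ Ico (2 * H) T, ‖w x‖ ^ 2 ≤
            T * ((H : ℝ) ^ 2 * T * (1 / (4 * β ^ (2 * A)))) :=
            mul_le_mul g3 hB2 (sum_nonneg fun _ _ => sq_nonneg _) hT0.le
        _ = _ := by
            rw [show β ^ (2 * A) = β ^ A * β ^ A by rw [← pow_add]; ring_nf]
            field_simp
            norm_num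
    exact g1.trans ((pow_le_pow_iff_left₀ (sum_nonneg fun _ _ => by positivity) (by positivity) two_ne_zero).1 g2)
  have hfin := windows (fun n => ((th n : ℝ) : ℂ) * ψ (n : ZMod d)) β hH2 hβ0.le (by
    intro n hn
    rw [norm_mul, Complex.norm_real, Real.norm_eq_abs, abs_of_nonneg (th_nonneg n)]
    calc th n * ‖ψ (n : ZMod d)‖ ≤ β * 1 :=
          mul_le_mul (th_le_of_le hn.le) (DirichletCharacter.norm_le_one ψ _) (norm_nonneg _) hβ0.le
      _ = β := mul_one _)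
  have t3 : 3 * (H : ℝ) * (H * β) ≤ (H : ℝ) * T * (1 / (2 * β ^ A)) := by
    have g1 : 3 * (H : ℝ) * (H * β) ≤ (H : ℝ) * (3 * ((T : ℝ) * Real.exp (-(4 * l))) * β) := by
      calc 3 * (H : ℝ) * (H * β) = (H : ℝ) * (3 * (H : ℝ) * β) := by ring
        _ ≤ _ := by gcongr
    refine g1.trans ?_
    rw [mul_assoc (H : ℝ) (T : ℝ)]
    apply mul_le_mul_of_nonneg_left _ hHpos.le
    rw [mul_one_div, le_div_iff₀ (by positivity)]
    have g2 : 3 * ((T : ℝ) * Real.exp (-(4 * l))) * β * (2 * β ^ A) =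
        T * (6 * β ^ (A + 1) * Real.exp (-(4 * l))) := by rw [pow_succ]; ring
    rw [g2]
    have g3 : 6 * β ^ (A + 1) ≤ Real.exp (l / 100) := by
      refine le_trans ?_ hβp
      have g4 : β ^ (A + 1) ≤ β ^ (2 * A + 2) := pow_le_pow_right₀ hβ1' (by omega)
      have g5 : 0 < β ^ (A + 1) := by positivity
      linarith
    calc (T : ℝ) * (6 * β ^ (A + 1) * Real.exp (-(4 * l))) ≤ T * (Real.exp (l / 100) * Real.exp (-(4 * l))) := by gcongr
      _ = T * Real.exp (l / 100 + -(4 * l)) := by rw [Real.exp_add]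
      _ ≤ T * 1 := by
          apply mul_le_mul_of_nonneg_left _ hT0.le
          exact Real.exp_le_one_iff.2 (by linarith)
      _ = T := mul_one _
  have hfin2 : (H : ℝ) * ‖∑ n ∈ range T, ((th n : ℝ) : ℂ) * ψ (n : ZMod d)‖ ≤ (H : ℝ) * (T / β ^ A) := by
    refine hfin.trans ((add_le_add hsum t3).trans (le_of_eq ?_))
    field_simp
    norm_num
  exact le_of_mul_le_mul_left hfin2 hHpos

end Pool.Agent.P8H54.GH
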